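import Pool.Agent.FS.H39Drop.Drop

/-! The jumps of the perimeter at one time, summed over the levels. -/

open MeasureTheory Set Filter Topology Metric
open scoped ENNReal NNReal RealInnerProductSpace symmDiff

namespace Pool.Agent.FS.SumDrop69

open Pool.Agent.MCF5 Pool.Agent.LevelSetFlow Pool.Agent.FS39

variable {N : ℕ} {L : ℝ≥0} {R a₁ a₂ B C₀ c : ℝ} {v : ℝ → Sp N → ℝ}

theorem sd_osc (hF : Flow L R a₁ a₂ B C₀ c v) (hc : 0 < c) (hB : 0 ≤ B) (hC : 0 ≤ C₀)
    {κ : ℝ → ℕ → Sp N → ℝ}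
    (hκ : ∀ s, 0 ≤ s → (∀ n, Integrable (κ s n)) ∧ (∀ n, ∫ x, |κ s n x| ≤ B) ∧
      ∀ (a b : ℝ) (ψ : Sp N → ℝ), a₁ ≤ a → a < b → LipC ψ a → ∀ ε : ℝ, 0 < ε →
        ∀ᶠ n in atTop, tv (fun x => cl a b (v s x)) ≤
          tv ψ + (∫ x, |κ s n x| * |ψ x - cl a b (v s x)|) + ε)
    {a T k j : ℝ} (ha : a₁ ≤ a) (hT0 : 0 < T) (hk : 0 < k) (hj : 0 ≤ j)
    (hgood : ∃ᶠ s in 𝓝[<] T, ¬ Bad (κ s) (v s) a (k * (T - s)) j) :
    limsup (fun t => perim {x | a < v t x}) (𝓝 T) -
      liminf (fun t => perim {x | a < v t x}) (𝓝 T) ≤ ENNReal.ofReal j := by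
  obtain ⟨p, hp, hV, hP, hcomp⟩ := exists_level hF hc hκ ha
  have hT : 0 ≤ T := hT0.le
  have hne : ∀ t, 0 ≤ t → perim {x | a < v t x} ≠ ∞ := fun t ht =>
    ne_top_of_le_ne_top ENNReal.ofReal_ne_top (hP t ht)
  have hfin : ∀ s, volume {x | a < v s x} ≠ ∞ := fun s =>
    ne_top_of_le_ne_top measure_ball_lt_top.ne (measure_mono (fl_subset (hF.data s) ha))
  have hsd : ∀ s t, volume ({x | a < v s x} ∆ {x | a < v t x}) ≠ ∞ :=
    fun s t => ne_top_of_le_ne_top (measure_union_ne_top (hfin s) (hfin t))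
      (measure_mono symmDiff_subset_union)
  set D : ℝ → ℝ → ℝ := fun s t => volume.real ({x | a < v s x} ∆ {x | a < v t x}) with hD
  set P : ℝ → ℝ := fun t => (perim {x | a < v t x}).toReal with hPd
  have hCB : 0 ≤ C₀ * B := mul_nonneg hC hB
  have hD0 : ∀ s t, 0 ≤ D s t := fun s t => measureReal_nonneg
  have htri : ∀ s t T, D s T ≤ D s t + D t T := fun s t T =>
    (measureReal_mono (symmDiff_triangle _ {x | a < v t x} _)
      (measure_union_ne_top (hsd s t) (hsd t T))).trans (measureReal_union_le _ _)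
  have hanti : ∀ {s t : ℝ}, 0 ≤ s → s ≤ t → p t ≤ p s := fun hs hst =>
    fk_anti (D := D) hCB hD0 hV hs hst
  have hPp : ∀ t, 0 ≤ t → P t ≤ p t := fun t ht =>
    ENNReal.toReal_le_of_le_ofReal (hp t ht).1 (hP t ht)
  have hupper : ∀ ε, 0 < ε → ∀ᶠ t in 𝓝 T, P t < P T + j + ε := by
    intro ε hε
    have hne' : (p '' Ico 0 T).Nonempty := ⟨p 0, 0, ⟨le_rfl, hT0⟩, rfl⟩
    have hbd : BddBelow (p '' Ico 0 T) := ⟨0, by
      rintro _ ⟨t, ht, rfl⟩
      exact (hp t ht.1).1⟩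
    set m := sInf (p '' Ico 0 T) with hm
    have hr : ∀ t, 0 ≤ t → t < T → m ≤ p t := fun t h0 h1 => csInf_le hbd ⟨t, ⟨h0, h1⟩, rfl⟩
    have hr' : ∀ e, 0 < e → ∃ s, 0 ≤ s ∧ s < T ∧ p s < m + e := by
      intro e he
      obtain ⟨_, ⟨s, hs, rfl⟩, h⟩ := exists_lt_of_csInf_lt hne' (show m < m + e by linarith)
      exact ⟨s, hs.1, hs.2, h⟩
    have hlow : m ≤ P T + j := by
      set A : ℝ := 2 * N * c + 2 / k with hA
      have hA0 : 0 ≤ A := by positivity
      refine fk_le_of_mul (c := A * (C₀ * B + 1)) (by positivity) fun μ hμ => ?_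
      obtain ⟨s₀, hs₀, hs₀T, hps₀⟩ := hr' (μ ^ 2) (by positivity)
      obtain ⟨s, hs, hss⟩ := (hgood.and_eventually (Ioo_mem_nhdsLT hs₀T)).exists
      have hs0 : 0 ≤ s := hs₀.trans hss.1.le
      obtain ⟨q, hq, hqq⟩ : ∃ q : ℝ, 0 < q ∧ q ^ 2 = T - s :=
        ⟨√(T - s), Real.sqrt_pos.2 (by linarith [hss.2]), Real.sq_sqrt (by linarith [hss.2])⟩
      rw [← hqq] at hs
      have h1 : p s ≤ P T + j + (2 * N * c / q + 2 * q / (k * q ^ 2)) * D s T :=
        hcomp s T (k * q ^ 2) q j hs0 hT (by positivity) hq hs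
      have e1 : 2 * N * c / q + 2 * q / (k * q ^ 2) = A * q⁻¹ := by
        rw [hA]; field_simp
      have h3 := fk_left (D := D) hCB hp htri hV hs0 hss.2 (lam := μ * q⁻¹) (by positivity) hr
      have e2 : C₀ * B * (μ * q⁻¹) ^ 2 * (T - s) = C₀ * B * μ ^ 2 := by
        rw [← hqq]; field_simp
      have h4 := hanti hs₀ hss.1.le
      have h5 : μ * (q⁻¹ * D s T) ≤ μ * ((C₀ * B + 1) * μ) := by
        rw [e2] at h3
        nlinarith
      have h6 := mul_le_mul_of_nonneg_left (le_of_mul_le_mul_left h5 hμ) hA0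
      have h7 := hr s hs0 hss.2
      rw [e1] at h1
      nlinarith
    obtain ⟨s, hs0, hsT, hps⟩ := hr' ε hε
    filter_upwards [lt_mem_nhds hsT] with t ht
    linarith [hPp t (hs0.trans ht.le), hanti hs0 ht.le]
  have hDlim : Tendsto (fun t => D t T) (𝓝 T) (𝓝 0) := by
    rw [Metric.tendsto_nhds]
    intro γ hγ
    obtain ⟨r, hr, h⟩ := fm_modulus hB hCB (half_pos hγ)
    filter_upwards [lt_mem_nhds hT0, ball_mem_nhds T hr] with t ht' htr
    have ht : 0 ≤ t := ht'.le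
    rw [mem_ball, Real.dist_eq, abs_lt] at htr
    rw [Real.dist_eq, sub_zero, abs_of_nonneg (hD0 _ _)]
    rcases le_total t T with h1 | h1
    · have := h (D t T) (p t) (p T) (T - t) (by linarith) (by linarith) (hp T hT).1 (hp t ht).2
        fun lam hl => hV t T lam ht h1 hl
      linarith
    · have := h (D T t) (p T) (p t) (t - T) (by linarith) (by linarith) (hp t ht).1 (hp T hT).2
        fun lam hl => hV T t lam hT h1 hl
      have e : D t T = D T t := by simp only [hD]; rw [symmDiff_comm]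
      linarith
  have hlower : ∀ ε, 0 < ε → ∀ᶠ t in 𝓝 T, P T - ε < P t := by
    intro ε hε
    by_contra hcon
    rw [not_eventually] at hcon
    have hfr := hcon.and_eventually (lt_mem_nhds hT0)
    obtain ⟨t₀, ht₀, -⟩ := hfr.exists
    have hpos : 0 ≤ P T - ε := ENNReal.toReal_nonneg.trans (not_lt.1 ht₀)
    have : (𝓝 T ⊓ 𝓟 {t | ¬ P T - ε < P t ∧ 0 < t}).NeBot := frequently_iff_neBot.1 hfr
    have h1 := perim_lsc (l := 𝓝 T ⊓ 𝓟 {t | ¬ P T - ε < P t ∧ 0 < t})
      (A := fun t => {x | a < v t x}) (fun t => fl_meas (hF.data t) a) (fl_meas (hF.data T) a)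
      (fun t => hsd t T) (hDlim.mono_left inf_le_left) (p := ENNReal.ofReal (P T - ε)) (by
        refine eventually_inf_principal.2 (Eventually.of_forall fun t ht => ?_)
        rw [← ENNReal.ofReal_toReal (hne t ht.2.le)]
        exact ENNReal.ofReal_le_ofReal (not_lt.1 ht.1))
    have h2 : P T ≤ P T - ε := ENNReal.toReal_le_of_le_ofReal hpos h1
    linarith
  have hP0 : 0 ≤ P T := ENNReal.toReal_nonneg
  have u1 : limsup (fun t => perim {x | a < v t x}) (𝓝 T) ≤ ENNReal.ofReal (P T + j) := by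
    refine ENNReal.le_of_forall_pos_le_add fun ε hε _ => ?_
    refine limsup_le_of_le (h := ?_)
    filter_upwards [hupper ε (by exact_mod_cast hε), lt_mem_nhds hT0] with t h1 ht
    rw [← ENNReal.ofReal_toReal (hne t ht.le), ← ENNReal.ofReal_coe_nnreal,
      ← ENNReal.ofReal_add (by positivity) (by positivity)]
    exact ENNReal.ofReal_le_ofReal h1.le
  have u2 : ENNReal.ofReal (P T) ≤ liminf (fun t => perim {x | a < v t x}) (𝓝 T) := by
    refine ENNReal.le_of_forall_pos_le_add fun ε hε _ => ?_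
    rw [← tsub_le_iff_right]
    refine le_liminf_of_le (h := ?_)
    filter_upwards [hlower ε (by exact_mod_cast hε), lt_mem_nhds hT0] with t h1 ht
    rw [← ENNReal.ofReal_toReal (hne t ht.le), ← ENNReal.ofReal_coe_nnreal,
      ← ENNReal.ofReal_sub _ (by positivity)]
    exact ENNReal.ofReal_le_ofReal h1.le
  rw [tsub_le_iff_left]
  refine u1.trans ?_
  rw [ENNReal.ofReal_add hP0 hj]
  exact add_le_add u2 le_rfl

theorem sd_sum {κ : ℝ → ℕ → Sp N → ℝ} (hm : ∀ s, Measurable (v s))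
    (hi : ∀ s, 0 ≤ s → (∀ n, Integrable (κ s n)) ∧ ∀ n, ∫ x, |κ s n x| ≤ B) {T : ℝ} (hT : 0 < T)
    (A : Finset ℝ) (j : ℝ → ℝ)
    (h : ∀ a ∈ A, ∀ᶠ s in 𝓝[<] T, Bad (κ s) (v s) a (1 * (T - s)) (j a)) :
    ∑ a ∈ A, j a ≤ B := by
  have h1 := (eventually_all_finset A).2 h
  have h2 : ∀ᶠ s in 𝓝[<] T, ∀ a ∈ A, ∀ b ∈ A, a ≠ b → 2 * (T - s) < |a - b| := by
    refine (eventually_all_finset A).2 fun a _ => (eventually_all_finset A).2 fun b _ => ?_
    by_cases hab : a = b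
    · exact Eventually.of_forall fun s h => absurd hab h
    · have hp : 0 < |a - b| := abs_pos.2 (sub_ne_zero.2 hab)
      filter_upwards [Ioo_mem_nhdsLT (show T - |a - b| / 2 < T by linarith)] with s hs _
      linarith [hs.1]
  obtain ⟨s, ⟨k1, k2⟩, k3⟩ := ((h1.and h2).and (Ioo_mem_nhdsLT hT)).exists
  obtain ⟨n, hn⟩ := ((eventually_all_finset A).2 k1).exists
  obtain ⟨i1, i2⟩ := hi s k3.1.le
  refine (Finset.sum_le_sum hn).trans ?_
  rw [← integral_biUnion_finset A (fun a _ => win_meas (hm s) a _) (fun a ha b hb hab => ?_)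
    fun a _ => (i1 n).abs.integrableOn]
  · exact (setIntegral_le_integral (i1 n).abs (Eventually.of_forall fun x => abs_nonneg _)).trans
      (i2 n)
  · refine disjoint_left.2 fun x h3 h4 => ?_
    have h5 : |v s x - a| < 1 * (T - s) := h3
    have h6 : |v s x - b| < 1 * (T - s) := h4
    have h7 := abs_sub_le a (v s x) b
    rw [abs_sub_comm a (v s x)] at h7
    linarith [k2 a ha b hb hab]

theorem sd_flow (hF : Flow L R a₁ a₂ B C₀ c v) (hc : 0 < c) (hB : 0 ≤ B) (hC : 0 ≤ C₀) :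
    (∀ a t, a₁ ≤ a → 0 ≤ t → perim {x | a < v t x} ≤ ENNReal.ofReal B) ∧
    ∀ T, 0 < T → ∀ A : Finset ℝ, (∀ a ∈ A, a₁ ≤ a) →
      ∑ a ∈ A, (limsup (fun t => perim {x | a < v t x}) (𝓝 T) -
        liminf (fun t => perim {x | a < v t x}) (𝓝 T)) ≤ ENNReal.ofReal B := by
  choose! κ hκ using hF.calib
  have hmeas : ∀ s, Measurable (v s) := fun s => (hF.data s).1.continuous.measurable
  have hP : ∀ a t, a₁ ≤ a → 0 ≤ t → perim {x | a < v t x} ≤ ENNReal.ofReal B := by
    intro a t ha ht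
    obtain ⟨p, hp, -, hP, -⟩ := exists_level hF hc hκ ha
    exact (hP t ht).trans (ENNReal.ofReal_le_ofReal (hp t ht).2)
  refine ⟨hP, fun T hT A hA => ?_⟩
  set o : ℝ → ℝ≥0∞ := fun a => limsup (fun t => perim {x | a < v t x}) (𝓝 T) -
    liminf (fun t => perim {x | a < v t x}) (𝓝 T) with ho
  have hfin : ∀ a ∈ A, o a ≠ ∞ := fun a ha =>
    ne_top_of_le_ne_top ENNReal.ofReal_ne_top (tsub_le_self.trans (limsup_le_of_le (h := by
      filter_upwards [lt_mem_nhds hT] with t ht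
      exact hP a t (hA a ha) ht.le)))
  have key : ∀ θ : ℝ, 0 ≤ θ → θ < 1 → θ * ∑ a ∈ A, (o a).toReal ≤ B := by
    intro θ h0 h1
    rw [Finset.mul_sum]
    refine sd_sum (κ := κ) hmeas (fun s hs => ⟨(hκ s hs).1, (hκ s hs).2.1⟩) hT A
      (fun a => θ * (o a).toReal) fun a ha => ?_
    rcases (ENNReal.toReal_nonneg (a := o a)).eq_or_lt with h2 | h2
    · refine Eventually.of_forall fun s => Eventually.of_forall fun n => ?_
      rw [← h2, mul_zero]
      exact integral_nonneg fun x => abs_nonneg _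
    · by_contra hcon
      have h3 := sd_osc hF hc hB hC hκ (hA a ha) hT one_pos (mul_nonneg h0 h2.le)
        (not_eventually.1 hcon)
      have h4 : (o a).toReal ≤ θ * (o a).toReal :=
        ENNReal.toReal_le_of_le_ofReal (mul_nonneg h0 h2.le) h3
      nlinarith
  have h5 : ∑ a ∈ A, (o a).toReal ≤ B := by
    by_contra hcon
    have h6 := not_le.1 hcon
    set S := ∑ a ∈ A, (o a).toReal
    have hS : 0 < S := hB.trans_lt h6
    have h7 := key ((B + S) / (2 * S)) (by positivity) (by rw [div_lt_one (by positivity)]; linarith)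
    have e : (B + S) / (2 * S) * S = (B + S) / 2 := by field_simp
    rw [e] at h7
    linarith
  rw [← ENNReal.toReal_sum hfin] at h5
  rw [← ENNReal.ofReal_toReal (ENNReal.sum_ne_top.2 hfin)]
  exact ENNReal.ofReal_le_ofReal h5

end Pool.Agent.FS.SumDrop69
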